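import Pool.Agent.Helper9.LR.Sml

/-!
# The zeros of the coefficients of the powers of a matrix
-/

set_option autoImplicit false

namespace Pool.Agent.Helper9.LR

open scoped Matrix

section

variable {N : Type} [Fintype N] [DecidableEq N]

/-- Matrices which are `1` modulo `3`. -/
def Cong (T : (Matrix N N ℤ)ˣ) : Prop := ∃ U : Matrix N N ℤ, T.1 = 1 + (3 : ℤ) • U

theorem cong_iff (T : (Matrix N N ℤ)ˣ) :
    Cong T ↔ T.1.map (Int.castRingHom (ZMod 3)) = 1 := by
  constructor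
  · rintro ⟨U, hU⟩
    rw [hU]
    ext i j
    rw [Matrix.map_apply, Matrix.add_apply, Matrix.smul_apply, map_add, smul_eq_mul, map_mul]
    have h3 : Int.castRingHom (ZMod 3) (3 : ℤ) = 0 := by decide
    rw [h3, zero_mul, add_zero, Matrix.one_apply, Matrix.one_apply]
    split_ifs <;> simp
  · intro h
    have h1 : ∀ i j, (3 : ℤ) ∣ T.1 i j - (1 : Matrix N N ℤ) i j := by
      intro i j
      refine (ZMod.intCast_zmod_eq_zero_iff_dvd _ 3).1 ?_
      have h2 := congrFun (congrFun h i) j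
      have h3 : ((T.1 i j : ℤ) : ZMod 3) = (1 : Matrix N N (ZMod 3)) i j := h2
      push_cast
      rw [h3, Matrix.one_apply, Matrix.one_apply]
      split_ifs <;> simp
    choose U hU using h1
    refine ⟨Matrix.of U, ?_⟩
    ext i j
    have := hU i j
    rw [Matrix.add_apply, Matrix.smul_apply, Matrix.of_apply, smul_eq_mul]
    linarith

/-- Reduction modulo `3`. -/
def red3 : (Matrix N N ℤ)ˣ →* (Matrix N N (ZMod 3))ˣ :=
  Units.map (RingHom.mapMatrix (Int.castRingHom (ZMod 3))).toMonoidHom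

theorem cong_iff' (T : (Matrix N N ℤ)ˣ) : Cong T ↔ red3 T = 1 := by
  rw [cong_iff, Units.ext_iff]
  rfl

theorem exists_cong (T : (Matrix N N ℤ)ˣ) : ∃ l : ℕ, 1 ≤ l ∧ Cong (T ^ l) := by
  refine ⟨orderOf (red3 T), orderOf_pos _, ?_⟩
  rw [cong_iff', map_pow, pow_orderOf_eq_one]

theorem Cong.zpow {T : (Matrix N N ℤ)ˣ} (h : Cong T) (j : ℤ) : Cong (T ^ j) := by
  rw [cong_iff'] at h ⊢
  rw [map_zpow, h, one_zpow]

theorem Cong.conj {T : (Matrix N N ℤ)ˣ} (h : Cong T) (g : (Matrix N N ℤ)ˣ) :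
    Cong (g⁻¹ * T * g) := by
  rw [cong_iff'] at h ⊢
  rw [map_mul, map_mul, h, mul_one, map_inv, inv_mul_cancel]

/-- The sequence of the coefficients. -/
def cf (T : (Matrix N N ℤ)ˣ) (u v : N → ℤ) (j : ℤ) : ℤ := u ⬝ᵥ ((T ^ j).1 *ᵥ v)

theorem cf_add (T : (Matrix N N ℤ)ˣ) (u v : N → ℤ) (i j : ℤ) :
    cf T u v (i + j) = cf T u ((T ^ j).1 *ᵥ v) i := by
  rw [cf, cf, zpow_add, Units.val_mul, Matrix.mulVec_mulVec]

theorem cf_inv (T : (Matrix N N ℤ)ˣ) (u v : N → ℤ) (j : ℤ) :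
    cf T⁻¹ u v j = cf T u v (-j) := by
  rw [cf, cf, inv_zpow, zpow_neg]

theorem cf_nat {T : (Matrix N N ℤ)ˣ} {U : Matrix N N ℤ} (hU : T.1 = 1 + (3 : ℤ) • U)
    (u v : N → ℤ) (j : ℕ) : cf T u v j = hs (fun k => u ⬝ᵥ (U ^ k *ᵥ v)) j := by
  have h1 : (T ^ (j : ℤ)).1 = ∑ k ∈ Finset.range (j + 1),
      ((j.choose k : ℤ) * 3 ^ k) • U ^ k := by
    rw [zpow_natCast, Units.val_pow_eq_pow_val, hU, add_comm,
      ((Commute.one_right ((3 : ℤ) • U))).add_pow]
    refine Finset.sum_congr rfl fun k _ => ?_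
    rw [one_pow, mul_one, smul_pow, mul_comm ((j.choose k : ℕ) : ℤ) (3 ^ k), mul_smul,
      smul_mul_assoc]
    congr 1
    ext a b
    rw [← Nat.cast_comm, ← nsmul_eq_mul, Matrix.smul_apply, Matrix.smul_apply, nsmul_eq_mul,
      smul_eq_mul]
  rw [cf, h1, hs, Matrix.sum_mulVec, dotProduct_sum]
  refine Finset.sum_congr rfl fun k _ => ?_
  rw [Matrix.smul_mulVec, dotProduct_smul, smul_eq_mul]

/-- One side. -/
theorem sml_nat {T : (Matrix N N ℤ)ˣ} (h : Cong T) (u v : N → ℤ)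
    (h1 : {j : ℕ | cf T u v j = 0}.Infinite) (j : ℕ) : cf T u v j = 0 := by
  obtain ⟨U, hU⟩ := h
  have h2 : {j : ℕ | hs (fun k => u ⬝ᵥ (U ^ k *ᵥ v)) j = 0}.Infinite := by
    convert h1 using 3 with j
    rw [cf_nat hU]
  rw [cf_nat hU]
  exact hansel _ h2 j

/-- **The theorem of Skolem, Mahler and Lech**: a coefficient of the powers of a matrix which is
`1` modulo `3` is zero for finitely many or for all exponents. -/
theorem sml {T : (Matrix N N ℤ)ˣ} (h : Cong T) (u v : N → ℤ)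
    (h1 : {j : ℤ | cf T u v j = 0}.Infinite) (j : ℤ) : cf T u v j = 0 := by
  -- the sequences without a gap at one side
  have key : ∀ {T : (Matrix N N ℤ)ˣ}, Cong T → ∀ u v : N → ℤ,
      {j : ℕ | cf T u v j = 0}.Infinite → ∀ j : ℤ, cf T u v j = 0 := by
    intro T h u v h1 j
    -- start at `-m`
    obtain ⟨m, hm⟩ : ∃ m : ℕ, 0 ≤ j + m := ⟨j.natAbs, by omega⟩
    have h2 : ∀ i : ℕ, cf T u ((T ^ (-(m : ℤ))).1 *ᵥ v) i = cf T u v (i + -(m : ℤ)) :=
      fun i => (cf_add T u v i (-(m : ℤ))).symm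
    have h3 : {i : ℕ | cf T u ((T ^ (-(m : ℤ))).1 *ᵥ v) i = 0}.Infinite := by
      refine Set.Infinite.mono ?_ (h1.image (f := fun i : ℕ => i + m) fun a _ b _ hab => by
        simpa using hab)
      rintro _ ⟨i, hi, rfl⟩
      change cf T u _ _ = 0
      rw [h2]
      push_cast
      rw [add_neg_cancel_right]
      exact hi
    have h4 := sml_nat h u _ h3 (j + m).toNat
    rw [h2, Int.toNat_of_nonneg hm, add_neg_cancel_right] at h4
    exact h4
  by_cases h2 : {j : ℕ | cf T u v j = 0}.Infinite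
  · exact key h u v h2 j
  · have h3 : {j : ℕ | cf T⁻¹ u v j = 0}.Infinite := by
      intro hfin
      rw [Set.not_infinite] at h2
      refine h1 (((h2.image (fun j : ℕ => (j : ℤ))).union
        (hfin.image (fun j : ℕ => -(j : ℤ)))).subset ?_)
      intro i hi
      rcases le_total 0 i with h0 | h0
      · left
        refine ⟨i.toNat, ?_, Int.toNat_of_nonneg h0⟩
        change cf T u v _ = 0
        rw [Int.toNat_of_nonneg h0]
        exact hi
      · right
        refine ⟨(-i).toNat, ?_, by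
          change -(((-i).toNat : ℕ) : ℤ) = i
          rw [Int.toNat_of_nonneg (by omega)]
          ring⟩
        change cf T⁻¹ u v _ = 0
        rw [cf_inv, Int.toNat_of_nonneg (by omega), neg_neg]
        exact hi
    have h4 := key (by
      have := h.zpow (-1)
      rwa [zpow_neg_one] at this) u v h3 (-j)
    rw [cf_inv, neg_neg] at h4
    exact h4

end

end Pool.Agent.Helper9.LR
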