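import Pool.Agent.Helper73.LR.Stmts
import Pool.Agent.Helper51.HV.J

/-!
# Caps of the unit ball (BAL): `S_ball_level`, `S_ball_cont`
-/

open MeasureTheory Set Metric Real
open scoped RealInnerProductSpace ENNReal
open Pool.Agent.Helper16.Buoy (E cap)
open Pool.Agent.Helper73.LR
open Pool.Agent.Helper51.HV (hyper_null)

namespace Pool.Agent.Helper9.LR

variable {n : ℕ}

theorem BB_comp : IsCompact (BB n) := isCompact_closedBall 0 1

/-- Unit vectors are conjugate under linear isometries. -/
theorem exists_rot {u u' : E n} (hu : ‖u‖ = 1) (hu' : ‖u'‖ = 1) : ∃ R : E n ≃ₗᵢ[ℝ] E n, R u = u' :=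
  ⟨Submodule.reflection (ℝ ∙ (u - u'))ᗮ, Submodule.reflection_sub (hu.trans hu'.symm)⟩

theorem exists_unit (hn : 1 ≤ n) : ∃ u : E n, ‖u‖ = 1 :=
  ⟨EuclideanSpace.single ⟨0, hn⟩ (1:ℝ), by simp⟩

theorem pre_BB (R : E n ≃ₗᵢ[ℝ] E n) : R ⁻¹' (BB n) = BB n := by
  ext x
  simp [BB]

theorem vol_rot {u u' : E n} (hu : ‖u‖ = 1) (hu' : ‖u'‖ = 1) (τ : ℝ) :
    volume (cap (BB n) u τ) = volume (cap (BB n) u' τ) := by
  obtain ⟨R, rfl⟩ := exists_rot hu hu'
  have h : R ⁻¹' (cap (BB n) (R u) τ) = cap (BB n) u τ := by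
    ext x
    unfold Pool.Agent.Helper16.Buoy.cap
    simp [BB]
  rw [← h]
  exact R.measurePreserving.measure_preimage_emb R.toHomeomorph.measurableEmbedding _

theorem GG_rot {u u' : E n} (hu : ‖u‖ = 1) (hu' : ‖u'‖ = 1) (τ : ℝ) :
    GG (BB n) u τ = GG (BB n) u' τ := by
  obtain ⟨R, rfl⟩ := exists_rot hu hu'
  unfold GG
  rw [← R.measurePreserving.setIntegral_preimage_emb R.toHomeomorph.measurableEmbedding
    (fun x => max (inner ℝ (R u) x - τ) 0) (BB n), pre_BB]
  simp

/-- Volume of the cap as a function of the level. -/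
noncomputable def cv (u : E n) (τ : ℝ) : ℝ := vol (cap (BB n) u τ)

theorem cap_fin (u : E n) (τ : ℝ) : volume (cap (BB n) u τ) ≠ ∞ :=
  (measure_lt_top_of_subset inter_subset_left BB_comp.measure_lt_top.ne).ne

theorem BB_fin : volume (BB n) ≠ ∞ := BB_comp.measure_lt_top.ne

theorem cv_eq (u : E n) (τ : ℝ) :
    cv u τ = ∫ x in BB n, (if τ ≤ inner ℝ u x then (1:ℝ) else 0) := by
  have hm : MeasurableSet {x : E n | τ ≤ inner ℝ u x} :=
    measurableSet_le measurable_const (by fun_prop)
  have h : (fun x : E n => if τ ≤ inner ℝ u x then (1:ℝ) else 0)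
      = {x : E n | τ ≤ inner ℝ u x}.indicator (fun _ => (1:ℝ)) := by
    ext x
    simp [indicator]
  rw [h, integral_indicator hm, Measure.restrict_restrict hm, integral_const, smul_eq_mul, mul_one,
    measureReal_def, Measure.restrict_apply_univ]
  unfold cv vol
  rw [inter_comm]
  rfl

theorem cv_cont {u : E n} (hu : u ≠ 0) : Continuous (cv u) := by
  have e : cv u = fun τ => ∫ x in BB n, (if τ ≤ inner ℝ u x then (1:ℝ) else 0) := by
    ext τ; exact cv_eq u τ
  rw [e, continuous_iff_continuousAt]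
  intro τ0
  apply continuousAt_of_dominated (bound := fun _ => (1:ℝ))
  · refine Filter.Eventually.of_forall fun τ => ?_
    apply Measurable.aestronglyMeasurable
    exact Measurable.ite (measurableSet_le measurable_const (by fun_prop)) measurable_const
      measurable_const
  · refine Filter.Eventually.of_forall fun τ => Filter.Eventually.of_forall fun x => ?_
    split_ifs <;> simp
  · exact (integrableOn_const (μ := volume) (s := BB n) (C := (1:ℝ)) BB_fin)
  · have h0 : ∀ᵐ x : E n, inner ℝ u x ≠ τ0 := by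
      have := hyper_null hu τ0
      rw [ae_iff]
      simpa using this
    filter_upwards [ae_restrict_of_ae h0] with x hx
    rcases lt_or_gt_of_ne hx with h | h
    · apply ContinuousAt.congr (f := fun _ => (0:ℝ)) continuousAt_const
      filter_upwards [lt_mem_nhds h] with τ hτ
      rw [if_neg (not_le.2 hτ)]
    · apply ContinuousAt.congr (f := fun _ => (1:ℝ)) continuousAt_const
      filter_upwards [gt_mem_nhds h] with τ hτ
      rw [if_pos hτ.le]

theorem inner_le_one {u x : E n} (hu : ‖u‖ = 1) (hx : x ∈ BB n) : |inner ℝ u x| ≤ 1 := by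
  have h := abs_real_inner_le_norm u x
  rw [hu, one_mul] at h
  rw [mem_closedBall_zero_iff] at hx
  exact h.trans hx

theorem cv_neg_one {u : E n} (hu : ‖u‖ = 1) : cv u (-1) = vol (BB n) := by
  unfold cv
  congr 1
  unfold Pool.Agent.Helper16.Buoy.cap
  rw [inter_eq_left]
  intro x hx
  exact (abs_le.1 (inner_le_one hu hx)).1

theorem cv_one {u : E n} (hu : ‖u‖ = 1) : cv u 1 = 0 := by
  unfold cv vol
  have hu0 : u ≠ 0 := by
    intro h; rw [h, norm_zero] at hu; exact zero_ne_one hu
  have : volume (cap (BB n) u 1) = 0 := by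
    refine measure_mono_null ?_ (hyper_null hu0 1)
    rintro x ⟨h1, h2⟩
    exact le_antisymm (abs_le.1 (inner_le_one hu h1)).2 h2
  rw [this]
  rfl

theorem cv_anti (u : E n) : Antitone (cv u) := by
  intro a b hab
  unfold cv vol
  apply ENNReal.toReal_mono (cap_fin u a)
  apply measure_mono
  rintro x ⟨h1, h2⟩
  exact ⟨h1, hab.trans h2⟩

theorem slab_open (u : E n) (a b : ℝ) :
    IsOpen (ball (0 : E n) 1 ∩ {x | a < inner ℝ u x ∧ inner ℝ u x < b}) := by
  have h1 : Continuous fun x : E n => (inner ℝ u x : ℝ) := by fun_prop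
  exact isOpen_ball.inter ((isOpen_lt continuous_const h1).inter (isOpen_lt h1 continuous_const))

theorem slab_pos {u : E n} (hu : ‖u‖ = 1) {a b : ℝ} (ha : -1 ≤ a) (hb : b ≤ 1) (hab : a < b) :
    0 < volume (ball (0 : E n) 1 ∩ {x | a < inner ℝ u x ∧ inner ℝ u x < b}) := by
  apply IsOpen.measure_pos
  · exact slab_open u a b
  · refine ⟨((a + b) / 2) • u, ?_, ?_, ?_⟩
    · rw [mem_ball_zero_iff, norm_smul, hu, mul_one, Real.norm_eq_abs, abs_lt]
      constructor <;> linarith
    · rw [inner_smul_right, real_inner_self_eq_norm_sq, hu]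
      linarith
    · rw [inner_smul_right, real_inner_self_eq_norm_sq, hu]
      linarith

theorem cv_strict {u : E n} (hu : ‖u‖ = 1) {a b : ℝ} (ha : -1 ≤ a) (hb : b ≤ 1) (hab : a < b) :
    cv u b < cv u a := by
  unfold cv vol
  rw [ENNReal.toReal_lt_toReal (cap_fin u b) (cap_fin u a)]
  have hd : Disjoint (cap (BB n) u b) (ball (0 : E n) 1 ∩ {x | a < inner ℝ u x ∧ inner ℝ u x < b}) := by
    rw [Set.disjoint_left]
    rintro x ⟨_, h1⟩ ⟨_, _, h2⟩
    exact absurd h2 (not_lt.2 h1)
  have hm : MeasurableSet (ball (0 : E n) 1 ∩ {x | a < inner ℝ u x ∧ inner ℝ u x < b}) :=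
    (slab_open u a b).measurableSet
  have hsub : cap (BB n) u b ∪ (ball (0 : E n) 1 ∩ {x | a < inner ℝ u x ∧ inner ℝ u x < b})
      ⊆ cap (BB n) u a := by
    rintro x (⟨h1, h2⟩ | ⟨h1, h2, _⟩)
    · exact ⟨h1, hab.le.trans h2⟩
    · exact ⟨ball_subset_closedBall h1, h2.le⟩
  calc volume (cap (BB n) u b)
      < volume (cap (BB n) u b) + volume (ball (0 : E n) 1 ∩ {x | a < inner ℝ u x ∧ inner ℝ u x < b}) :=
        ENNReal.lt_add_right (cap_fin u b) (slab_pos hu ha hb hab).ne'
    _ = volume (cap (BB n) u b ∪ (ball (0 : E n) 1 ∩ {x | a < inner ℝ u x ∧ inner ℝ u x < b})) :=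
        (measure_union hd hm).symm
    _ ≤ volume (cap (BB n) u a) := measure_mono hsub

theorem vol_BB_pos : 0 < vol (BB n) := by
  unfold vol
  exact ENNReal.toReal_pos (measure_closedBall_pos _ _ one_pos).ne' BB_fin

theorem GG_nonneg (u : E n) (τ : ℝ) : 0 ≤ GG (BB n) u τ := by
  unfold GG
  exact integral_nonneg fun x => le_max_right _ _

theorem GG_pos {u : E n} (hu : ‖u‖ = 1) {τ : ℝ} (h0 : -1 ≤ τ) (h1 : τ < 1) : 0 < GG (BB n) u τ := by
  unfold GG
  rw [setIntegral_pos_iff_support_of_nonneg_ae]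
  · refine lt_of_lt_of_le (slab_pos hu h0 le_rfl h1) (measure_mono ?_)
    rintro x ⟨hx, h2, _⟩
    refine ⟨?_, ball_subset_closedBall hx⟩
    rw [Function.mem_support]
    rw [max_eq_left (by linarith)]
    linarith
  · exact Filter.Eventually.of_forall fun x => le_max_right _ _
  · exact ContinuousOn.integrableOn_compact BB_comp (Continuous.continuousOn (by fun_prop))

theorem int_inner_zero (u : E n) : ∫ x in BB n, inner ℝ u x = (0:ℝ) := by
  have h := (Measure.measurePreserving_neg (volume : Measure (E n))).setIntegral_preimage_emb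
    (MeasurableEquiv.neg (E n)).measurableEmbedding (fun x => (inner ℝ u x : ℝ)) (BB n)
  have hpre : (fun x : E n => -x) ⁻¹' (BB n) = BB n := by
    ext x
    simp [BB]
  change ∫ x in (fun x : E n => -x) ⁻¹' (BB n), (inner ℝ u (-x) : ℝ) = _ at h
  rw [hpre] at h
  simp only [inner_neg_right, integral_neg] at h
  linarith

theorem GG_lower {u : E n} {τ : ℝ} : -τ * vol (BB n) ≤ GG (BB n) u τ := by
  have h1 : ∫ x in BB n, (inner ℝ u x - τ) = -τ * vol (BB n) := by
    rw [integral_sub, int_inner_zero, integral_const, smul_eq_mul, measureReal_def,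
      Measure.restrict_apply_univ]
    · unfold vol; ring
    · exact ContinuousOn.integrableOn_compact BB_comp (Continuous.continuousOn (by fun_prop))
    · exact (integrableOn_const (μ := volume) (s := BB n) (C := τ) BB_fin)
  rw [← h1]
  unfold GG
  apply setIntegral_mono
  · exact ContinuousOn.integrableOn_compact BB_comp (Continuous.continuousOn (by fun_prop))
  · exact ContinuousOn.integrableOn_compact BB_comp (Continuous.continuousOn (by fun_prop))
  · intro x
    exact le_max_left _ _

/-- (BAL) Caps of the ball. -/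
theorem ball_level : S_ball_level := by
  intro n hn θ h0 h1
  obtain ⟨u, hu⟩ := exists_unit hn
  have hu0 : u ≠ 0 := by
    intro h; rw [h, norm_zero] at hu; exact zero_ne_one hu
  have hV := vol_BB_pos (n := n)
  have hmem : θ * vol (BB n) ∈ Icc (cv u 1) (cv u (-1)) := by
    rw [cv_one hu, cv_neg_one hu]
    exact ⟨by positivity, by nlinarith⟩
  obtain ⟨t, ⟨ht1, ht2⟩, ht⟩ := intermediate_value_Icc' (by norm_num : (-1:ℝ) ≤ 1)
    (cv_cont hu0).continuousOn hmem
  have ht1' : -1 < t := by
    rcases ht1.eq_or_lt with h | h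
    · rw [← h, cv_neg_one hu] at ht
      nlinarith
    · exact h
  have ht2' : t < 1 := by
    rcases ht2.eq_or_lt with h | h
    · rw [h, cv_one hu] at ht
      have : 0 < θ * vol (BB n) := by positivity
      linarith
    · exact h
  refine ⟨t, GG (BB n) u t + θ * vol (BB n) * t, ht1', ht2', ?_, ?_⟩
  · rcases lt_or_ge t 0 with h | h
    · have := GG_lower (u := u) (τ := t)
      have h2 : 0 < (-t) * ((1 - θ) * vol (BB n)) :=
        mul_pos (by linarith) (mul_pos (by linarith) hV)
      nlinarith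
    · have := GG_pos hu ht1 ht2'
      have h2 : 0 ≤ θ * vol (BB n) * t := by positivity
      linarith
  · intro v hv
    constructor
    · rw [vol_rot hv hu, ← ht]
      unfold cv vol
      rw [ENNReal.ofReal_toReal (cap_fin u t)]
    · rw [GG_rot hv hu]

/-- (BAC) Continuity of the level. -/
theorem ball_cont : S_ball_cont := by
  intro n hn θ t H hB η hη
  obtain ⟨ht1, ht2, hH, hB⟩ := hB
  obtain ⟨u0, hu0⟩ := exists_unit hn
  have hcv : cv u0 t = θ * vol (BB n) := by
    have h1 := (hB u0 hu0).1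
    unfold cv
    rw [vol, h1]
    have hθ : 0 ≤ θ * vol (BB n) := by
      by_contra hneg
      push Not at hneg
      rw [ENNReal.ofReal_of_nonpos hneg.le] at h1
      have h2 : cv u0 t = 0 := by unfold cv vol; rw [h1]; rfl
      have h3 := cv_strict hu0 ht1.le le_rfl ht2
      rw [cv_one hu0, h2] at h3
      exact lt_irrefl _ h3
    rw [ENNReal.toReal_ofReal hθ]
  set η' := min η (min ((t + 1) / 2) ((1 - t) / 2)) with hη'
  have h1 : 0 < η' := lt_min hη (lt_min (by linarith) (by linarith))
  have h2 : η' ≤ η := min_le_left _ _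
  have h3 : η' ≤ (t + 1) / 2 := (min_le_right _ _).trans (min_le_left _ _)
  have h4 : η' ≤ (1 - t) / 2 := (min_le_right _ _).trans (min_le_right _ _)
  have h5 : cv u0 t < cv u0 (t - η') := cv_strict hu0 (by linarith) (by linarith) (by linarith)
  have h6 : cv u0 (t + η') < cv u0 t := cv_strict hu0 (by linarith) (by linarith) (by linarith)
  refine ⟨min (cv u0 (t - η') - cv u0 t) (cv u0 t - cv u0 (t + η')),
    lt_min (by linarith) (by linarith), ?_⟩
  intro u τ hu hτ
  have e1 : vol (cap (BB n) u τ) = cv u0 τ := by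
    unfold cv vol
    rw [vol_rot hu hu0]
  rw [e1, ← hcv] at hτ
  have h7 := hτ.trans_le (min_le_left _ _)
  have h8 := hτ.trans_le (min_le_right _ _)
  rw [abs_lt] at h7 h8
  have h9 : t - η' < τ := by
    by_contra hc
    push Not at hc
    have := cv_anti u0 hc
    linarith [h7.2]
  have h10 : τ < t + η' := by
    by_contra hc
    push Not at hc
    have := cv_anti u0 hc
    linarith [h8.1]
  rw [abs_lt]
  constructor <;> linarith

end Pool.Agent.Helper9.LR
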