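import Mathlib

/-!
# Zeros of linear recurrences

The theorem of Skolem, Mahler and Lech for invertible integral matrices, in a uniform form, with
the elementary proof of Hansel.
-/

set_option autoImplicit false

namespace Pool.Agent.Helper9.LR

open Polynomial

/-! ### Polynomials with highly divisible coefficients -/

/-- The coefficient of `X ^ j` is divisible by `3 ^ ((j + s) / 2)`. -/
def Dv (s : ℕ) (A : ℤ[X]) : Prop := ∀ j, (3 : ℤ) ^ ((j + s) / 2) ∣ A.coeff j

theorem Dv.div {s : ℕ} {A B : ℤ[X]} {t : ℤ} (hA : Dv s A) (h : A = (X - C t) * B) :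
    Dv (s + 1) B := by
  have hc : ∀ j, B.coeff j = A.coeff (j + 1) + t * B.coeff (j + 1) := by
    intro j
    rw [h, sub_mul, coeff_sub, coeff_X_mul, coeff_C_mul]
    ring
  have key : ∀ m j, B.natDegree < j + m → (3 : ℤ) ^ ((j + (s + 1)) / 2) ∣ B.coeff j := by
    intro m
    induction m with
    | zero =>
      intro j hj
      rw [coeff_eq_zero_of_natDegree_lt (by simpa using hj)]
      exact dvd_zero _
    | succ m ih =>
      intro j hj
      rw [hc]
      refine dvd_add ?_ (Dvd.dvd.mul_left ?_ t)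
      · have := hA (j + 1)
        rwa [show j + 1 + s = j + (s + 1) by ring] at this
      · refine (pow_dvd_pow 3 ?_).trans (ih (j + 1) (by omega))
        omega
  exact fun j => key (B.natDegree + 1) j (by omega)

theorem Dv.eval {s : ℕ} {A : ℤ[X]} (hA : Dv s A) (x : ℤ) : (3 : ℤ) ^ (s / 2) ∣ A.eval x := by
  rw [eval_eq_sum_range]
  refine Finset.dvd_sum fun j _ => Dvd.dvd.mul_right ?_ _
  exact (pow_dvd_pow 3 (by omega)).trans (hA j)

theorem Dv.roots (T : Finset ℤ) : ∀ {s : ℕ} {A : ℤ[X]}, Dv s A → (∀ t ∈ T, A.eval t = 0) →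
    ∀ x : ℤ, (3 : ℤ) ^ ((T.card + s) / 2) ∣ A.eval x := by
  induction T using Finset.induction_on with
  | empty =>
    intro s A hA _ x
    rw [Finset.card_empty, zero_add]
    exact hA.eval x
  | insert t T ht ih =>
    intro s A hA h0 x
    obtain ⟨B, hB⟩ := dvd_iff_isRoot.2 (h0 t (Finset.mem_insert_self t T))
    have h1 := ih (hA.div hB) (fun t' ht' => by
      have h2 := h0 t' (Finset.mem_insert_of_mem ht')
      rw [hB, eval_mul, eval_sub, eval_X, eval_C] at h2
      rcases mul_eq_zero.1 h2 with h3 | h3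
      · exfalso
        have : t' = t := by linarith
        exact ht (this ▸ ht')
      · exact h3) x
    rw [hB, eval_mul, Finset.card_insert_of_notMem ht]
    refine Dvd.dvd.mul_left ?_ _
    rwa [show T.card + 1 + s = T.card + (s + 1) by ring]

/-! ### Hansel's lemma -/

/-- The sequence `∑ k, C(j, k) 3 ^ k c k`. -/
def hs (c : ℕ → ℤ) (j : ℕ) : ℤ := ∑ k ∈ Finset.range (j + 1), (j.choose k : ℤ) * 3 ^ k * c k

theorem hs_eq (c : ℕ → ℤ) {j n : ℕ} (h : j ≤ n) :
    hs c j = ∑ k ∈ Finset.range (n + 1), (j.choose k : ℤ) * 3 ^ k * c k := by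
  rw [hs]
  refine Finset.sum_subset (Finset.range_mono (by omega)) fun k _ hk => ?_
  rw [Finset.mem_range, not_lt] at hk
  rw [Nat.choose_eq_zero_of_lt (by omega)]
  simp

theorem exists_mul (n : ℕ) : ∃ m : ℤ, IsCoprime (3 : ℤ) m ∧
    ∀ i ≤ n, ∃ b : ℤ, m * 3 ^ i = b * 3 ^ (i / 2) * (i.factorial : ℤ) := by
  have key : ∀ i : ℕ, ∃ m : ℕ, ∃ a ≤ i / 2, i.factorial = 3 ^ a * m ∧ ¬ 3 ∣ m := by
    intro i
    have h3 : Nat.Prime 3 := Nat.prime_three
    refine ⟨ordCompl[3] i.factorial, (i.factorial).factorization 3, ?_,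
      (Nat.ordProj_mul_ordCompl_eq_self _ _).symm,
      Nat.not_dvd_ordCompl h3 (Nat.factorial_ne_zero i)⟩
    have : Fact (Nat.Prime 3) := ⟨h3⟩
    have h1 := sub_one_mul_padicValNat_factorial (p := 3) i
    rw [Nat.factorization_def _ h3]
    omega
  choose m a ha h1 h2 using key
  refine ⟨∏ i ∈ Finset.range (n + 1), (m i : ℤ), ?_, fun i hi => ?_⟩
  · refine IsCoprime.prod_right fun i _ => ?_
    have : Nat.Coprime 3 (m i) := (Nat.Prime.coprime_iff_not_dvd Nat.prime_three).2 (h2 i)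
    exact_mod_cast Nat.isCoprime_iff_coprime.2 this
  · have h3 : (m i : ℤ) ∣ ∏ i ∈ Finset.range (n + 1), (m i : ℤ) :=
      Finset.dvd_prod_of_mem _ (Finset.mem_range.2 (by omega))
    obtain ⟨q, hq⟩ := h3
    have h4 : a i ≤ i / 2 := ha i
    obtain ⟨e, he⟩ : ∃ e, i = i / 2 + a i + e := ⟨i - (i / 2 + a i), by omega⟩
    refine ⟨q * 3 ^ e, ?_⟩
    rw [hq, h1 i]
    push_cast
    have h5 : (3 : ℤ) ^ i = 3 ^ (i / 2) * 3 ^ (a i) * 3 ^ e := by
      rw [← pow_add, ← pow_add, ← he]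
    rw [h5]
    ring

/-- **Hansel's lemma.** -/
theorem hansel (c : ℕ → ℤ) (h : {j : ℕ | hs c j = 0}.Infinite) (x : ℕ) : hs c x = 0 := by
  classical
  by_contra hx
  obtain ⟨k, hk⟩ : ∃ k : ℕ, (hs c x).natAbs < 3 ^ k :=
    ⟨(hs c x).natAbs, Nat.lt_pow_self (by norm_num)⟩
  obtain ⟨T, hT, hcard⟩ := h.exists_subset_card_eq (2 * k)
  obtain ⟨n, hn⟩ : ∃ n, (∀ t ∈ T, t ≤ n) ∧ x ≤ n :=
    ⟨(insert x T).sup id, fun t ht => Finset.le_sup (f := id) (Finset.mem_insert_of_mem ht),
      Finset.le_sup (f := id) (Finset.mem_insert_self x T)⟩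
  obtain ⟨m, hm, hb⟩ := exists_mul n
  choose! b hb using hb
  let A : ℤ[X] := ∑ i ∈ Finset.range (n + 1), C (b i * 3 ^ (i / 2) * c i) * descPochhammer ℤ i
  have hev : ∀ t : ℕ, t ≤ n → A.eval (t : ℤ) = m * hs c t := by
    intro t ht
    rw [hs_eq c ht, Finset.mul_sum, eval_finsetSum]
    refine Finset.sum_congr rfl fun i hi => ?_
    rw [Finset.mem_range] at hi
    rw [eval_mul, eval_C, descPochhammer_eval_eq_descFactorial,
      Nat.descFactorial_eq_factorial_mul_choose]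
    have h1 := hb i (by omega)
    push_cast
    calc b i * 3 ^ (i / 2) * c i * ((i.factorial : ℤ) * (t.choose i : ℤ))
        = b i * 3 ^ (i / 2) * (i.factorial : ℤ) * (t.choose i : ℤ) * c i := by ring
      _ = m * ((t.choose i : ℤ) * 3 ^ i * c i) := by rw [← h1]; ring
  have hA : Dv 0 A := by
    intro j
    rw [finsetSum_coeff]
    refine Finset.dvd_sum fun i _ => ?_
    rw [coeff_C_mul, add_zero]
    by_cases hij : j ≤ i
    · refine Dvd.dvd.mul_right (Dvd.dvd.mul_right (Dvd.dvd.mul_left ?_ _) _) _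
      exact pow_dvd_pow 3 (Nat.div_le_div_right hij)
    · rw [coeff_eq_zero_of_natDegree_lt (by
        have := (descPochhammer_natDegree (R := ℤ) i)
        omega)]
      simp
  have h1 := hA.roots (T.image (fun t : ℕ => (t : ℤ))) (fun t ht => by
    obtain ⟨t', ht', rfl⟩ := Finset.mem_image.1 ht
    rw [hev t' (hn.1 t' ht')]
    have : hs c t' = 0 := hT ht'
    rw [this, mul_zero]) (x : ℤ)
  rw [Finset.card_image_of_injective _ Nat.cast_injective, hcard, hev x hn.2] at h1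
  have h2 : (3 : ℤ) ^ k ∣ hs c x := by
    rw [show (2 * k + 0) / 2 = k by omega] at h1
    exact IsCoprime.dvd_of_dvd_mul_left (IsCoprime.pow_left hm) h1
  have h3 := Int.natAbs_dvd_natAbs.2 h2
  rw [Int.natAbs_pow] at h3
  have h4 := Nat.le_of_dvd (Int.natAbs_pos.2 hx) h3
  have h5 : (3 : ℤ).natAbs = 3 := rfl
  rw [h5] at h4
  omega

end Pool.Agent.Helper9.LR
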